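import Pool.Agent.N396.ZK.Stm2

/-!
# The core of the linear programming bound for matrices
-/

set_option autoImplicit false

namespace Pool.Agent.N690.ZK

open Finset Classical Pool.Agent.N396.ZK

variable {α β : Type}

lemma inter_le (R : α → β → Prop) (P : Finset α) (Q : Finset β) (s M : ℕ) (hs : 2 ≤ s)
    (h : ∀ A ⊆ P, A.card = s → (com R Q A).card ≤ M) {B : Finset α} (hB : B ⊆ P)
    (hBc : B.card = s - 2) {x x' : α} (hx : x ∈ P \ B) (hx' : x' ∈ P \ B) (hne : x ≠ x') :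
    (row R (com R Q B) x ∩ row R (com R Q B) x').card ≤ M := by
  rw [mem_sdiff] at hx hx'
  have e : row R (com R Q B) x ∩ row R (com R Q B) x' = com R Q (insert x (insert x' B)) := by
    ext y
    simp only [row, com, mem_inter, mem_filter, mem_insert, forall_eq_or_imp]
    tauto
  rw [e]
  apply h
  · intro z hz
    simp only [mem_insert] at hz
    rcases hz with rfl | rfl | hz
    · exact hx.1
    · exact hx'.1
    · exact hB hz
  · rw [card_insert_of_notMem, card_insert_of_notMem hx'.2, hBc]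
    · omega
    · simp only [mem_insert, not_or]
      exact ⟨hne, hx.2⟩

lemma dsum (R : α → β → Prop) (G : Finset α) (S : Finset β) :
    ∑ x ∈ G, ((row R S x).card : ℝ) = ∑ y ∈ S, ((G.filter (fun x => R x y)).card : ℝ) := by
  have := sum_card_bipartiteAbove_eq_sum_card_bipartiteBelow (s := G) (t := S) R
  exact_mod_cast this

lemma cs (R : α → β → Prop) (G : Finset α) (S : Finset β) (M : ℕ)
    (h : ∀ x ∈ G, ∀ x' ∈ G, x ≠ x' → (row R S x ∩ row R S x').card ≤ M) :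
    (∑ x ∈ G, ((row R S x).card : ℝ)) ^ 2 ≤
      S.card * (M * (G.card : ℝ) ^ 2 + ∑ x ∈ G, ((row R S x).card : ℝ)) := by
  have h2 : ∑ y ∈ S, ((G.filter (fun x => R x y)).card : ℝ) ^ 2 =
      ∑ x ∈ G, ∑ x' ∈ G, ((row R S x ∩ row R S x').card : ℝ) := by
    have e1 : ∀ y, ((G.filter (fun x => R x y)).card : ℝ) ^ 2 =
        ∑ x ∈ G, ∑ x' ∈ G, (if R x y ∧ R x' y then (1 : ℝ) else 0) := by
      intro y
      have : ((G.filter (fun x => R x y)).card : ℝ) = ∑ x ∈ G, (if R x y then (1 : ℝ) else 0) := by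
        rw [card_filter]; push_cast; rfl
      rw [sq, this, sum_mul_sum]
      refine sum_congr rfl fun x _ => sum_congr rfl fun x' _ => ?_
      by_cases h1 : R x y <;> by_cases h2 : R x' y <;> simp [h1, h2]
    simp_rw [e1]
    rw [sum_comm]
    refine sum_congr rfl fun x _ => ?_
    rw [sum_comm]
    refine sum_congr rfl fun x' _ => ?_
    have e2 : row R S x ∩ row R S x' = S.filter (fun y => R x y ∧ R x' y) := by
      ext y
      simp only [row, mem_inter, mem_filter]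
      tauto
    rw [e2, card_filter]
    push_cast
    rfl
  have h3 : ∑ x ∈ G, ∑ x' ∈ G, ((row R S x ∩ row R S x').card : ℝ) ≤
      M * (G.card : ℝ) ^ 2 + ∑ x ∈ G, ((row R S x).card : ℝ) := by
    have e3 : ∀ x ∈ G, ∑ x' ∈ G, ((row R S x ∩ row R S x').card : ℝ) ≤
        M * (G.card : ℝ) + ((row R S x).card : ℝ) := by
      intro x hx
      rw [← add_sum_erase G _ hx, inter_self, add_comm]
      gcongr
      calc ∑ x' ∈ G.erase x, ((row R S x ∩ row R S x').card : ℝ)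
          ≤ ∑ x' ∈ G.erase x, (M : ℝ) := by
            refine sum_le_sum fun x' hx' => ?_
            rw [mem_erase] at hx'
            exact_mod_cast h x hx x' hx'.2 hx'.1.symm
        _ = M * ((G.erase x).card : ℝ) := by rw [sum_const, nsmul_eq_mul, mul_comm]
        _ ≤ M * (G.card : ℝ) := by
            gcongr
            exact erase_subset _ _
    calc _ ≤ ∑ x ∈ G, (M * (G.card : ℝ) + ((row R S x).card : ℝ)) := sum_le_sum e3
      _ = _ := by rw [sum_add_distrib, sum_const, nsmul_eq_mul]; ring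
  rw [← h2] at h3
  have h4 := sq_sum_le_card_mul_sum_sq (s := S) (f := fun y => ((G.filter (fun x => R x y)).card : ℝ))
  rw [← dsum] at h4
  exact h4.trans (by gcongr)

/-- consequence of Cauchy-Schwarz when the sum is large -/
lemma cs' (R : α → β → Prop) (G : Finset α) (S : Finset β) (M : ℕ)
    (h : ∀ x ∈ G, ∀ x' ∈ G, x ≠ x' → (row R S x ∩ row R S x').card ≤ M) (E : ℝ) (hE0 : 0 ≤ E)
    (hE : 2 * (S.card : ℝ) ≤ E) (hEG : E ≤ ∑ x ∈ G, ((row R S x).card : ℝ)) :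
    E ^ 2 ≤ 2 * M * S.card * (G.card : ℝ) ^ 2 := by
  have h1 := cs R G S M h
  set F := ∑ x ∈ G, ((row R S x).card : ℝ) with hF
  have h2 : E ^ 2 ≤ F ^ 2 := by gcongr
  have h3 : (S.card : ℝ) * F ≤ F ^ 2 / 2 := by
    have : 2 * (S.card : ℝ) ≤ F := hE.trans hEG
    nlinarith
  nlinarith

lemma row_card_le (R : α → β → Prop) (S : Finset β) (x : α) :
    ((row R S x).card : ℝ) ≤ S.card := by
  exact_mod_cast card_le_card (filter_subset _ _)

/-- the finite part of the argument -/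
lemma fin_part (s M : ℕ) (μ μ' ε r τ k0 : ℝ) (hs : 2 ≤ s) (hμ' : 0 < μ') (hμμ : μ' < μ)
    (hM : 1 ≤ M) (hε : 0 < ε) (hε2 : ε ≤ 1 / 2) (hεμ : μ' * (1 + 16 * ε) ≤ μ * (1 - ε) ^ 2)
    (hr : 0 < r) (hk0 : k0 = μ * r)
    (R : α → β → Prop) (P : Finset α) (Q : Finset β) (hP : 8 * s / ε * r ≤ P.card)
    (hA : ∀ A ⊆ P, A.card = s → (com R Q A).card ≤ M)
    (B : Finset α) (hB : B ⊆ P) (hBc : B.card = s - 2)
    (hτ : τ = (∑ y ∈ com R Q B, ((P.filter (fun x => R x y)).card : ℝ)) / P.card)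
    (hin : -ε * k0 ^ 2 ≤ 2 * k0 * τ - k0 ^ 2 - μ * (com R Q B).card) :
    ∃ G ⊆ P \ B, (∀ x ∈ G, (1 - ε) * τ ≤ ((row R (com R Q B) x).card : ℝ)) ∧
      μ' * (com R Q B).card ≤ ((1 - ε) * τ) ^ 2 ∧
      μ ^ 2 * r ^ 2 ≤ 128 * M * (com R Q B).card ∧
      ((com R Q B).card : ℝ) ≤ 32 * M * r ^ 2 ∧
      ε ^ 2 * μ / (72 * M) * (P.card : ℝ) ^ 2 ≤ (G.card : ℝ) ^ 2 ∧ 0 ≤ τ := by
  set S := com R Q B with hS
  set σ : ℝ := (S.card : ℝ) with hσ
  have hσ0 : 0 ≤ σ := Nat.cast_nonneg _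
  have hμ : 0 < μ := hμ'.trans hμμ
  have hk0p : 0 < k0 := by rw [hk0]; positivity
  have hs' : (2 : ℝ) ≤ s := by exact_mod_cast hs
  have hM' : (1 : ℝ) ≤ M := by exact_mod_cast hM
  -- τ is at least `k0 / 4`
  have hτ4 : k0 ≤ 4 * τ := by
    have h1 : (1 - ε) * k0 ^ 2 ≤ 2 * k0 * τ := by nlinarith [mul_nonneg hμ.le hσ0]
    have h2 : k0 * ((1 - ε) * k0) ≤ k0 * (2 * τ) := by nlinarith
    have h3 := le_of_mul_le_mul_left h2 hk0p
    nlinarith
  have hτ0 : 0 < τ := by linarith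
  have hστ : σ ≤ 2 * r * τ := by
    have h1 : μ * σ ≤ μ * (2 * r * τ) := by
      have : 0 ≤ (1 - ε) * k0 ^ 2 := mul_nonneg (by linarith) (sq_nonneg _)
      have e : μ * (2 * r * τ) = 2 * k0 * τ := by rw [hk0]; ring
      rw [e]
      nlinarith
    exact le_of_mul_le_mul_left h1 hμ
  have hii : μ * σ ≤ (1 + 16 * ε) * τ ^ 2 := by
    have h1 : 2 * k0 * τ ≤ τ ^ 2 + k0 ^ 2 := by nlinarith [sq_nonneg (τ - k0)]
    have h2 : k0 ^ 2 ≤ 16 * τ ^ 2 := by nlinarith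
    nlinarith
  have hP0 : 0 < (P.card : ℝ) := lt_of_lt_of_le (by positivity) hP
  have hPr : 8 * s * r ≤ ε * P.card := by
    have : 8 * s / ε * r * ε ≤ P.card * ε := by gcongr
    have e : 8 * s / ε * r * ε = 8 * s * r := by field_simp
    linarith
  -- sum over P
  have hsumP : ∑ x ∈ P, ((row R S x).card : ℝ) = P.card * τ := by
    rw [dsum, hτ]; field_simp
  have hsumB : ∑ x ∈ B, ((row R S x).card : ℝ) ≤ s * σ := by
    calc _ ≤ ∑ x ∈ B, σ := sum_le_sum fun x _ => row_card_le R S x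
      _ = B.card * σ := by rw [sum_const, nsmul_eq_mul]
      _ ≤ s * σ := by
          gcongr
          rw [hBc]; omega
  have hsσ : s * σ ≤ ε / 4 * (P.card * τ) := by
    have h1 : s * σ ≤ s * (2 * r * τ) := by gcongr
    nlinarith
  have h2σ : 2 * σ ≤ ε / 4 * (P.card * τ) := by
    have : 2 * σ ≤ s * σ := by gcongr
    linarith
  have hPτ : 0 < P.card * τ := by positivity
  have hsumP' : P.card * τ - ε / 4 * (P.card * τ) ≤ ∑ x ∈ P \ B, ((row R S x).card : ℝ) := by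
    have h1 := sum_sdiff hB (f := fun x => ((row R S x).card : ℝ))
    linarith
  have hpair : ∀ x ∈ P \ B, ∀ x' ∈ P \ B, x ≠ x' → (row R S x ∩ row R S x').card ≤ M :=
    fun x hx x' hx' hne => inter_le R P Q s M hs hA hB hBc hx hx' hne
  -- Cauchy-Schwarz for P'
  have hcs1 := cs' R (P \ B) S M hpair (P.card * τ / 2) (by positivity) (by nlinarith)
    (by nlinarith)
  have hPB : ((P \ B).card : ℝ) ≤ P.card := by
    exact_mod_cast card_le_card sdiff_subset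
  have hτσ : τ ^ 2 ≤ 8 * M * σ := by
    have h1 : 2 * (M : ℝ) * σ * ((P \ B).card : ℝ) ^ 2 ≤ 2 * M * σ * (P.card : ℝ) ^ 2 := by gcongr
    have h2 : (P.card : ℝ) ^ 2 * τ ^ 2 ≤ (P.card : ℝ) ^ 2 * (8 * M * σ) := by nlinarith
    exact le_of_mul_le_mul_left h2 (by positivity)
  have hτr : τ ≤ 16 * M * r := by
    have h1 : τ * τ ≤ τ * (16 * M * r) := by nlinarith
    exact le_of_mul_le_mul_left h1 hτ0
  -- the set G
  refine ⟨(P \ B).filter (fun x => (1 - ε) * τ ≤ ((row R S x).card : ℝ)), filter_subset _ _,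
    fun x hx => (mem_filter.1 hx).2, ?_, ?_, ?_, ?_, hτ0.le⟩
  · have h1 : μ' * σ * μ ≤ ((1 - ε) * τ) ^ 2 * μ := by
      calc μ' * σ * μ = μ' * (μ * σ) := by ring
        _ ≤ μ' * ((1 + 16 * ε) * τ ^ 2) := by gcongr
        _ = (μ' * (1 + 16 * ε)) * τ ^ 2 := by ring
        _ ≤ (μ * (1 - ε) ^ 2) * τ ^ 2 := by gcongr
        _ = _ := by ring
    exact le_of_mul_le_mul_right h1 hμ
  · have : k0 ^ 2 ≤ 16 * τ ^ 2 := by nlinarith
    rw [hk0, mul_pow] at this
    nlinarith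
  · nlinarith
  · set G := (P \ B).filter (fun x => (1 - ε) * τ ≤ ((row R S x).card : ℝ)) with hG
    have hsumG : ε / 2 * (P.card * τ) ≤ ∑ x ∈ G, ((row R S x).card : ℝ) := by
      have h1 : ∑ x ∈ P \ B, ((row R S x).card : ℝ) =
          ∑ x ∈ G, ((row R S x).card : ℝ) +
            ∑ x ∈ (P \ B).filter (fun x => ¬ (1 - ε) * τ ≤ ((row R S x).card : ℝ)),
              ((row R S x).card : ℝ) := (sum_filter_add_sum_filter_not _ _ _).symm
      have h2 : ∑ x ∈ (P \ B).filter (fun x => ¬ (1 - ε) * τ ≤ ((row R S x).card : ℝ)),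
              ((row R S x).card : ℝ) ≤ P.card * ((1 - ε) * τ) := by
        calc _ ≤ ∑ x ∈ (P \ B).filter (fun x => ¬ (1 - ε) * τ ≤ ((row R S x).card : ℝ)),
              ((1 - ε) * τ) := by
              refine sum_le_sum fun x hx => ?_
              exact (not_le.1 (mem_filter.1 hx).2).le
          _ = (((P \ B).filter (fun x => ¬ (1 - ε) * τ ≤ ((row R S x).card : ℝ))).card : ℝ) *
              ((1 - ε) * τ) := by rw [sum_const, nsmul_eq_mul]
          _ ≤ P.card * ((1 - ε) * τ) := by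
              have : 0 ≤ (1 - ε) * τ := mul_nonneg (by linarith) hτ0.le
              gcongr
              exact (filter_subset _ _).trans sdiff_subset
      nlinarith
    have hcs2 := cs' R G S M (fun x hx x' hx' hne =>
      hpair x (filter_subset _ _ hx) x' (filter_subset _ _ hx') hne) (ε / 2 * (P.card * τ))
      (by positivity) (by nlinarith) hsumG
    -- E^2 ≤ 2 M σ |G|^2
    have hσ9 : μ * σ ≤ 9 * τ ^ 2 := by
      have : (1 + 16 * ε) * τ ^ 2 ≤ 9 * τ ^ 2 := by gcongr; linarith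
      linarith
    have h5 : ε ^ 2 * μ / (72 * M) * (P.card : ℝ) ^ 2 * τ ^ 2 ≤ (G.card : ℝ) ^ 2 * τ ^ 2 := by
      have e1 : ε ^ 2 * μ / (72 * M) * (P.card : ℝ) ^ 2 * τ ^ 2 =
          (ε / 2 * (P.card * τ)) ^ 2 * (μ / (18 * M)) := by
        field_simp; ring
      rw [e1]
      calc (ε / 2 * (P.card * τ)) ^ 2 * (μ / (18 * M))
          ≤ (2 * M * σ * (G.card : ℝ) ^ 2) * (μ / (18 * M)) := by gcongr
        _ = (μ * σ) / 9 * (G.card : ℝ) ^ 2 := by field_simp; ring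
        _ ≤ (9 * τ ^ 2) / 9 * (G.card : ℝ) ^ 2 := by gcongr
        _ = _ := by ring
    exact le_of_mul_le_mul_right h5 (by positivity)

/-- choice of `ε` -/
lemma exists_eps {μ μ' : ℝ} (hμ' : 0 < μ') (hμμ : μ' < μ) :
    ∃ ε : ℝ, 0 < ε ∧ ε ≤ 1 / 2 ∧ μ' * (1 + 16 * ε) ≤ μ * (1 - ε) ^ 2 := by
  have hμ : 0 < μ := hμ'.trans hμμ
  have h0 : 0 < μ - μ' := by linarith
  have h1 : (μ - μ') / (18 * μ) * (18 * μ) = μ - μ' := by field_simp
  have h2 : 0 < (μ - μ') / (18 * μ) := by positivity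
  refine ⟨(μ - μ') / (18 * μ), h2, ?_, ?_⟩
  · rw [div_le_iff₀ (by positivity)]; linarith
  · set ε := (μ - μ') / (18 * μ)
    have h3 : μ' * (16 * ε) ≤ μ * (16 * ε) := by gcongr
    nlinarith [mul_nonneg hμ.le (sq_nonneg ε)]

/-- the floor of the square root of `μ' σ` -/
lemma floor_part (μ' Kf σ : ℝ) (hμ' : 0 < μ') (hKf : 0 < Kf) (h1 : 4 * μ' * Kf ^ 2 ≤ σ)
    (h2 : (Kf + 1) ^ 2 ≤ μ' * σ) :
    ∃ d : ℕ, Kf ≤ d ∧ (d : ℝ) ^ 2 ≤ μ' * σ ∧ |(d : ℝ) ^ 2 / σ - μ'| ≤ 1 / Kf := by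
  have hσ : 0 < σ := lt_of_lt_of_le (by positivity) h1
  set q := Real.sqrt (μ' * σ) with hq
  have hq2 : q ^ 2 = μ' * σ := Real.sq_sqrt (by positivity)
  have hq0 : 0 ≤ q := Real.sqrt_nonneg _
  have hqK : Kf + 1 ≤ q := by
    rw [hq]; exact Real.le_sqrt_of_sq_le h2
  have hd1 : (⌊q⌋₊ : ℝ) ≤ q := Nat.floor_le hq0
  have hd2 : q < ⌊q⌋₊ + 1 := Nat.lt_floor_add_one q
  set d := ⌊q⌋₊ with hd
  have hd0 : (0 : ℝ) ≤ d := Nat.cast_nonneg _
  refine ⟨d, by linarith, by nlinarith, ?_⟩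
  have e : (d : ℝ) ^ 2 / σ - μ' = -((q ^ 2 - d ^ 2) / σ) := by
    rw [hq2]; field_simp; ring
  rw [e, abs_neg, abs_of_nonneg (div_nonneg (by nlinarith) hσ.le), div_le_iff₀ hσ]
  have h3 : q ^ 2 - (d : ℝ) ^ 2 ≤ 2 * q := by nlinarith
  refine h3.trans ?_
  rw [one_div, inv_mul_eq_div, le_div_iff₀ hKf]
  have h4 : (2 * q * Kf) ^ 2 ≤ σ ^ 2 := by
    have : (2 * q * Kf) ^ 2 = 4 * μ' * Kf ^ 2 * σ := by
      rw [mul_pow, mul_pow, hq2]; ring
    rw [this, sq σ]
    gcongr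
  exact le_of_sq_le_sq h4 hσ.le

theorem core2 (hfin : StmFin) (hpick : StmPick) : StmCore2 := by
  intro s k M μ μ' a hs hk hM hμ' hμμ hLP
  have hμ : 0 < μ := hμ'.trans hμμ
  obtain ⟨ε, hε, hε2, hεμ⟩ := exists_eps hμ' hμμ
  obtain ⟨Kf, hKf, hfin⟩ := hfin k M μ' a hμ' hLP
  obtain ⟨Kp, hKp, hpick⟩ := hpick s μ ε hs hμ hε
  have hM' : (1 : ℝ) ≤ M := by exact_mod_cast hM
  have hs' : (2 : ℝ) ≤ s := by exact_mod_cast hs
  set g := Real.sqrt (ε ^ 2 * μ / (72 * M)) with hg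
  have hg0 : 0 < g := Real.sqrt_pos.2 (by positivity)
  have hg2 : g ^ 2 = ε ^ 2 * μ / (72 * M) := Real.sq_sqrt (by positivity)
  set c := Real.sqrt (32 * M * μ') with hc
  have hc0 : 0 < c := Real.sqrt_pos.2 (by positivity)
  have hc2 : c ^ 2 = 32 * M * μ' := Real.sq_sqrt (by positivity)
  set K := Kp + 1 + 8 * s / ε + Kf * c ^ k / g + 128 * M * (4 * μ' * Kf ^ 2) / μ ^ 2 +
    128 * M * ((Kf + 1) ^ 2 / μ') / μ ^ 2 with hK
  have t1 : 0 < 8 * s / ε := by positivity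
  have t2 : 0 < Kf * c ^ k / g := by positivity
  have t3 : 0 < 128 * M * (4 * μ' * Kf ^ 2) / μ ^ 2 := by positivity
  have t4 : 0 < 128 * M * ((Kf + 1) ^ 2 / μ') / μ ^ 2 := by positivity
  refine ⟨K, by positivity, ?_⟩
  intro α β R P Q n D hQ hD hKr hDn hP hrow hA
  have hK1 : 1 ≤ K := by linarith
  have hn : 0 < n := by
    by_contra hn
    have : n / D ≤ 0 := div_nonpos_of_nonpos_of_nonneg (not_lt.1 hn) hD.le
    linarith
  set r := n / D with hr
  have hr0 : 0 < r := by positivity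
  have hr1 : 1 ≤ r := hK1.trans hKr
  have hrk : r ≤ r ^ k := le_self_pow₀ hr1 (by omega)
  have hrk0 : 0 < r ^ k := by positivity
  have hKP : Kp * r ≤ P.card := by
    calc Kp * r ≤ K * r ^ k := by gcongr; linarith
      _ ≤ _ := hP
  obtain ⟨B, hB, hBc, hin⟩ := hpick α β R P Q n D hQ hD (by linarith) hDn hKP hrow
  have hP8 : 8 * s / ε * r ≤ P.card := by
    calc 8 * s / ε * r ≤ K * r ^ k := by gcongr; linarith
      _ ≤ _ := hP
  obtain ⟨G, hGP, hGe, hd1, hσ1, hσ2, hGc, hτ⟩ := fin_part s M μ μ' ε r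
    ((∑ y ∈ com R Q B, ((P.filter (fun x => R x y)).card : ℝ)) / P.card) (μ * r) hs hμ' hμμ hM hε
    hε2 hεμ hr0 rfl R P Q hP8 hA B hB hBc rfl hin
  set τ := (∑ y ∈ com R Q B, ((P.filter (fun x => R x y)).card : ℝ)) / P.card with hτd
  set S := com R Q B with hS
  -- σ is large
  have hrr : K ≤ r ^ 2 := hKr.trans (le_self_pow₀ hr1 (by norm_num))
  have hσlow : ∀ X : ℝ, 128 * M * X / μ ^ 2 ≤ K → X ≤ (S.card : ℝ) := by
    intro X hX
    have h1 : 128 * M * X ≤ μ ^ 2 * r ^ 2 := by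
      have := hX.trans hrr
      rw [div_le_iff₀ (by positivity)] at this
      linarith
    have h2 : 128 * (M : ℝ) * X ≤ 128 * M * S.card := h1.trans hσ1
    exact le_of_mul_le_mul_left h2 (by positivity)
  have hσa : 4 * μ' * Kf ^ 2 ≤ (S.card : ℝ) := hσlow _ (by linarith)
  have hσb : (Kf + 1) ^ 2 / μ' ≤ (S.card : ℝ) := hσlow _ (by linarith)
  rw [div_le_iff₀ hμ'] at hσb
  obtain ⟨d, hdK, hd2, hd3⟩ := floor_part μ' Kf S.card hμ' hKf hσa (by linarith)
  have hdτ : (d : ℝ) ≤ (1 - ε) * τ :=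
    le_of_sq_le_sq (hd2.trans hd1) (mul_nonneg (by linarith) hτ)
  -- the sets T x
  have hT : ∀ x : α, ∃ T : Finset β, x ∈ G → T ⊆ row R S x ∧ T.card = d := by
    intro x
    by_cases hx : x ∈ G
    · have h1 : d ≤ (row R S x).card := by
        have := hdτ.trans (hGe x hx)
        exact_mod_cast this
      obtain ⟨T, hT1, hT2⟩ := exists_subset_card_eq h1
      exact ⟨T, fun _ => ⟨hT1, hT2⟩⟩
    · exact ⟨∅, fun h => absurd h hx⟩
  choose T hT using hT
  refine hfin α β G S T d (fun x hx => ((hT x hx).1).trans (filter_subset _ _))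
    (fun x hx => (hT x hx).2) ?_ hdK ?_ hd3
  · intro x hx x' hx' hne
    refine (card_le_card (inter_subset_inter (hT x hx).1 (hT x' hx').1)).trans ?_
    exact inter_le R P Q s M hs hA hB hBc (hGP hx) (hGP hx') hne
  · have hdc : (d : ℝ) ≤ c * r := by
      refine le_of_sq_le_sq ?_ (by positivity)
      rw [mul_pow, hc2]
      calc (d : ℝ) ^ 2 ≤ μ' * S.card := hd2
        _ ≤ μ' * (32 * M * r ^ 2) := by gcongr
        _ = _ := by ring
    have hGg : g * (P.card : ℝ) ≤ G.card := by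
      refine le_of_sq_le_sq ?_ (Nat.cast_nonneg _)
      rw [mul_pow, hg2]
      exact hGc
    calc Kf * (d : ℝ) ^ k ≤ Kf * (c * r) ^ k := by gcongr
      _ = g * ((Kf * c ^ k / g) * r ^ k) := by rw [mul_pow]; field_simp
      _ ≤ g * (K * r ^ k) := by gcongr; linarith
      _ ≤ g * P.card := by gcongr
      _ ≤ G.card := hGg

end Pool.Agent.N690.ZK
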